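import Pool.Agent.D0H45.TH.Stm

set_option autoImplicit false

/-! Module CONN of project TH (helper45). -/

namespace Pool.Agent.D0H70.TH

open Pool.Agent.D0H45.TH
open Module Filter Topology

/-- the span of the operators `ψ u • ρ u - 1` -/
def DD {F V G : Type} [Field F] [AddCommGroup V] [Module F V] [Group G]
    (ρ : G →* Module.End F V) (ψ : G → F) (U : Subgroup G) : Submodule F (Module.End F V) :=
  Submodule.span F {x | ∃ u ∈ U, x = ψ u • ρ u - 1}

theorem DD_mono {F V G : Type} [Field F] [AddCommGroup V] [Module F V] [Group G]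
    (ρ : G →* Module.End F V) (ψ : G → F) {U U' : Subgroup G} (h : U' ≤ U) :
    DD ρ ψ U' ≤ DD ρ ψ U := by
  refine Submodule.span_mono ?_
  rintro x ⟨u, hu, rfl⟩
  exact ⟨u, h hu, rfl⟩

theorem lin_eq {F : Type} [Field F] {n : ℕ} (L : Module.End F (Fin n → F) →ₗ[F] F)
    (A : Matrix (Fin n) (Fin n) F) :
    L (Matrix.toLinAlgEquiv' A) =
      ∑ i, ∑ j, A i j * L (Matrix.toLinAlgEquiv' (Matrix.single i j (1 : F))) := by
  conv_lhs => rw [Matrix.matrix_eq_sum_single A]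
  rw [map_sum, map_sum]
  refine Finset.sum_congr rfl fun i _ => ?_
  rw [map_sum, map_sum]
  refine Finset.sum_congr rfl fun j _ => ?_
  have h : Matrix.single i j (A i j) = A i j • Matrix.single i j (1 : F) := by
    rw [Matrix.smul_single, smul_eq_mul, mul_one]
  rw [h, map_smul, map_smul, smul_eq_mul]

theorem t_CONN : S_CONN := by
  intro F G _ _ _ _ _ _ _ _ _ _ n r hr U₀ ψ hU₀ hU₀o hT hψ
  let O := {U : Subgroup G // U.Normal ∧ IsOpen (U : Set G) ∧ U ≤ U₀}
  have hne : Nonempty O := ⟨⟨U₀, hU₀, hU₀o, le_rfl⟩⟩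
  let d : O → ℕ := fun U => finrank F (DD (toEnd r) ψ U.1)
  obtain ⟨⟨U, hU, hUo, hUU⟩, hmin⟩ : ∃ U : O, ∀ U' : O, d U ≤ d U' :=
    ⟨Function.argmin d, fun U' => Function.argmin_le d U'⟩
  refine ⟨U, hU, hUo, hUU, ⟨hT.one, fun u hu v hv => hT.mul u (hUU hu) v (hUU hv),
    fun u hu => hT.conj u (hUU hu), fun u hu => hT.ne u (hUU hu)⟩, ⟨⟨hU, hUo, le_rfl⟩, fun U' h => h.2.2, ?_⟩⟩
  rintro U' ⟨hU', hU'o, hU'U⟩ L hL u hu
  set S : Set F := {x : F | ∃ u ∈ U', x = L (ψ u • toEnd r u)} with hS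
  let f : G → F := fun u => L (ψ u • toEnd r u)
  have hf1 : f 1 = L 1 := by
    show L (ψ 1 • toEnd r 1) = L 1
    rw [hT.one, map_one, one_smul]
  have hf : ContinuousOn f (U₀ : Set G) := by
    have h1 : f = fun u => ψ u * ∑ i, ∑ j, r u i j *
        L (Matrix.toLinAlgEquiv' (Matrix.single i j (1 : F))) := by
      funext u
      show L (ψ u • toEnd r u) = _
      rw [map_smul, smul_eq_mul]
      congr 1
      exact lin_eq L (r u)
    rw [h1]
    refine hψ.mul (Continuous.continuousOn ?_)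
    refine continuous_finsetSum _ fun i _ => continuous_finsetSum _ fun j _ => ?_
    exact ((continuous_apply_apply i j).comp hr).mul continuous_const
  have hfa : ContinuousAt f 1 := hf.continuousAt (hU₀o.mem_nhds U₀.one_mem)
  have hcl : IsClosed (S \ {L 1}) := (hL.subset Set.sdiff_subset).isClosed
  have h2 : ∀ᶠ x in 𝓝 (1 : G), f x ∈ (S \ {L 1})ᶜ := by
    refine hfa.eventually (hcl.isOpen_compl.mem_nhds ?_)
    rw [hf1]
    exact fun h => h.2 rfl
  have h3 : ∀ᶠ x in 𝓝 (1 : G), x ∈ U' := hU'o.mem_nhds U'.one_mem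
  obtain ⟨W, hW, hWo, hW1⟩ := eventually_nhds_iff.1 (h2.and h3)
  obtain ⟨H, hH⟩ := ProfiniteGrp.exist_openNormalSubgroup_sub_open_nhds_of_one hWo hW1
  have hHU' : (H.toSubgroup : Subgroup G) ≤ U' := fun x hx => (hW x (hH hx)).2
  have hHL : ∀ x ∈ (H.toSubgroup : Subgroup G), L (ψ x • toEnd r x) = L 1 := by
    intro x hx
    have h4 := (hW x (hH hx)).1
    by_contra h5
    exact h4 ⟨⟨x, hHU' hx, rfl⟩, h5⟩
  let H' : O := ⟨H.toSubgroup, H.isNormal', H.isOpen', (hHU'.trans hU'U).trans hUU⟩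
  have hle : DD (toEnd r) ψ H.toSubgroup ≤ DD (toEnd r) ψ U := DD_mono _ _ (hHU'.trans hU'U)
  have heq : DD (toEnd r) ψ H.toSubgroup = DD (toEnd r) ψ U :=
    Submodule.eq_of_le_of_finrank_le hle (hmin H')
  have hker : DD (toEnd r) ψ H.toSubgroup ≤ LinearMap.ker L := by
    refine Submodule.span_le.2 ?_
    rintro x ⟨v, hv, rfl⟩
    show L (ψ v • toEnd r v - 1) = 0
    rw [map_sub, hHL v hv, sub_self]
  have h6 : ψ u • toEnd r u - 1 ∈ DD (toEnd r) ψ U := Submodule.subset_span ⟨u, hu, rfl⟩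
  rw [← heq] at h6
  have h7 : L (ψ u • toEnd r u - 1) = 0 := hker h6
  rw [map_sub, sub_eq_zero] at h7
  exact h7

end Pool.Agent.D0H70.TH
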