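import Pool.Agent.D0H45.TH.Stm

set_option autoImplicit false

/-! Module MEAS of project TH (helper45). -/

namespace Pool.Agent.D0H70.TH

open Pool.Agent.D0H45.TH
open Module Filter Topology MeasureTheory

theorem exists_min {G : Type} (𝒵 : Set (Set G)) (p : Set G → Prop)
    (hdcc : ∀ s : ℕ → Set G, (∀ k, s k ∈ 𝒵) → Antitone s → ∃ N, ∀ k, N ≤ k → s k = s N)
    (Z : Set G) (hZ : Z ∈ 𝒵) (hp : p Z) :
    ∃ Z₀ ∈ 𝒵, Z₀ ⊆ Z ∧ p Z₀ ∧ ∀ Z' ∈ 𝒵, Z' ⊆ Z₀ → p Z' → Z' = Z₀ := by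
  by_contra hcon
  push Not at hcon
  have hstep : ∀ W : {W : Set G // W ∈ 𝒵 ∧ W ⊆ Z ∧ p W},
      ∃ W' : {W : Set G // W ∈ 𝒵 ∧ W ⊆ Z ∧ p W}, W'.1 ⊆ W.1 ∧ W'.1 ≠ W.1 := by
    rintro ⟨W, hW1, hW2, hW3⟩
    obtain ⟨W', h1, h2, h3, h4⟩ := hcon W hW1 hW2 hW3
    exact ⟨⟨W', h1, h2.trans hW2, h3⟩, h2, h4⟩
  choose f hf1 hf2 using hstep
  let s : ℕ → {W : Set G // W ∈ 𝒵 ∧ W ⊆ Z ∧ p W} := fun k => f^[k] ⟨Z, hZ, subset_rfl, hp⟩
  have hs : ∀ k, s (k + 1) = f (s k) := fun k => Function.iterate_succ_apply' f k _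
  obtain ⟨N, hN⟩ := hdcc (fun k => (s k).1) (fun k => (s k).2.1)
    (antitone_nat_of_succ_le fun k => by
      rw [hs]
      exact hf1 (s k))
  have h := hN (N + 1) (by omega)
  rw [hs] at h
  exact hf2 (s N) h

theorem t_MEAS : S_MEAS := by
  intro G _ _ _ _ _ _ μ _ _ 𝒵 hcl hint htr hdcc U hU hUo Z hZ g hpos
  set A : Set G := {x | g⁻¹ * x ∈ U} with hA
  have hAo : IsOpen A := hUo.preimage (continuous_const_mul g⁻¹)
  obtain ⟨Z₀, hZ₀, hZ₀Z, hpos₀, hmin⟩ := exists_min 𝒵 (fun W => μ (W ∩ A) ≠ 0) hdcc Z hZ hpos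
  -- the translates
  let T : G → Set G := fun u => (fun x => u⁻¹ * x) ⁻¹' Z₀
  have hTm : ∀ u, T u ∈ 𝒵 := by
    intro u
    have h := htr Z₀ hZ₀ u
    rwa [Set.image_mul_left] at h
  have hAu : ∀ u ∈ U, ∀ x, u⁻¹ * x ∈ A ↔ x ∈ A := by
    intro u hu x
    show g⁻¹ * (u⁻¹ * x) ∈ U ↔ g⁻¹ * x ∈ U
    have h1 : g⁻¹ * (u⁻¹ * x) = (g⁻¹ * u⁻¹ * (g⁻¹)⁻¹) * (g⁻¹ * x) := by group
    rw [h1]
    exact U.mul_mem_cancel_left (hU.conj_mem _ (U.inv_mem hu) _)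
  have hmeas : ∀ u ∈ U, μ (T u ∩ A) = μ (Z₀ ∩ A) := by
    intro u hu
    have h1 : T u ∩ A = (fun x => u⁻¹ * x) ⁻¹' (Z₀ ∩ A) := by
      ext x
      constructor
      · rintro ⟨h2, h3⟩
        exact ⟨h2, (hAu u hu x).2 h3⟩
      · rintro ⟨h2, h3⟩
        exact ⟨h2, (hAu u hu x).1 h3⟩
    rw [h1, measure_preimage_mul]
  have hsub : ∀ u ∈ U, ∀ v ∈ U, μ (T u ∩ T v ∩ A) ≠ 0 → T u ⊆ T v := by
    intro u hu v hv h
    have h1 : μ ((Z₀ ∩ T (u⁻¹ * v)) ∩ A) ≠ 0 := by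
      have h2 : T u ∩ T v ∩ A = (fun x => u⁻¹ * x) ⁻¹' ((Z₀ ∩ T (u⁻¹ * v)) ∩ A) := by
        ext x
        have e : (u⁻¹ * v)⁻¹ * (u⁻¹ * x) = v⁻¹ * x := by group
        show (u⁻¹ * x ∈ Z₀ ∧ v⁻¹ * x ∈ Z₀) ∧ x ∈ A ↔
          (u⁻¹ * x ∈ Z₀ ∧ (u⁻¹ * v)⁻¹ * (u⁻¹ * x) ∈ Z₀) ∧ u⁻¹ * x ∈ A
        rw [e, hAu u hu x]
      rwa [h2, measure_preimage_mul] at h
    have h3 := hmin _ (hint _ hZ₀ _ (hTm (u⁻¹ * v))) Set.inter_subset_left h1
    intro x hx
    have h4 : u⁻¹ * x ∈ Z₀ ∩ T (u⁻¹ * v) := by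
      rw [h3]
      exact hx
    have h5 : (u⁻¹ * v)⁻¹ * (u⁻¹ * x) ∈ Z₀ := h4.2
    have e : (u⁻¹ * v)⁻¹ * (u⁻¹ * x) = v⁻¹ * x := by group
    rwa [e] at h5
  have heq : ∀ u ∈ U, ∀ v ∈ U, μ (T u ∩ T v ∩ A) ≠ 0 → T u = T v := by
    intro u hu v hv h
    refine (hsub u hu v hv h).antisymm (hsub v hv u hu ?_)
    rwa [Set.inter_comm (T v) (T u)]
  -- finitely many translates
  have hfinT : Finite {S : Set G // ∃ u ∈ U, S = T u} := by
    have h1 := Measure.finite_const_le_meas_of_disjoint_iUnion₀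
      (ι := {S : Set G // ∃ u ∈ U, S = T u}) μ (ε := μ (Z₀ ∩ A)) (pos_iff_ne_zero.2 hpos₀)
      (As := fun i => i.1 ∩ A) (fun i => by
        obtain ⟨S, u, hu, rfl⟩ := i
        exact ((hcl _ (hTm u)).measurableSet.inter hAo.measurableSet).nullMeasurableSet)
      (fun i j hij => by
        obtain ⟨S, u, hu, rfl⟩ := i
        obtain ⟨S, v, hv, rfl⟩ := j
        show μ ((T u ∩ A) ∩ (T v ∩ A)) = 0
        by_contra h
        apply hij
        apply Subtype.ext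
        refine heq u hu v hv ?_
        rwa [← Set.inter_inter_distrib_right] at h)
      (measure_ne_top μ _)
    have h2 : {i : {S : Set G // ∃ u ∈ U, S = T u} | μ (Z₀ ∩ A) ≤ μ (i.1 ∩ A)} = Set.univ := by
      ext i
      obtain ⟨S, u, hu, rfl⟩ := i
      simp [hmeas u hu]
    rw [h2] at h1
    exact Set.finite_univ_iff.1 h1
  have hT1 : ∀ u x, x ∈ T u ↔ u⁻¹ * x ∈ Z₀ := fun u x => Iff.rfl
  -- the stabilizer
  let N : Subgroup G :=
    { carrier := {u | u ∈ U ∧ ∀ x, u⁻¹ * x ∈ Z₀ ↔ x ∈ Z₀}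
      mul_mem' := by
        rintro a b ⟨ha, ha'⟩ ⟨hb, hb'⟩
        refine ⟨U.mul_mem ha hb, fun x => ?_⟩
        have e : (a * b)⁻¹ * x = b⁻¹ * (a⁻¹ * x) := by group
        rw [e, hb', ha']
      one_mem' := ⟨U.one_mem, fun x => by rw [inv_one, one_mul]⟩
      inv_mem' := by
        rintro a ⟨ha, ha'⟩
        refine ⟨U.inv_mem ha, fun x => ?_⟩
        rw [← ha' (a⁻¹⁻¹ * x)]
        have e : a⁻¹ * (a⁻¹⁻¹ * x) = x := by group
        rw [e] }
  have hNU : N ≤ U := fun u hu => hu.1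
  have hNi : N.FiniteIndex := by
    have h1 : Finite (U ⧸ N.subgroupOf U) := by
      let φ : U ⧸ N.subgroupOf U → {S : Set G // ∃ u ∈ U, S = T u} :=
        Quotient.lift (fun u : U => ⟨T u, u, u.2, rfl⟩) (by
          intro u v huv
          have h2 : u⁻¹ * v ∈ N.subgroupOf U := QuotientGroup.leftRel_apply.1 huv
          have h3 : ((u⁻¹ * v : U) : G) ∈ N := h2
          apply Subtype.ext
          ext x
          show (u : G)⁻¹ * x ∈ Z₀ ↔ (v : G)⁻¹ * x ∈ Z₀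
          rw [← h3.2 ((u : G)⁻¹ * x)]
          have e : ((u⁻¹ * v : U) : G)⁻¹ * ((u : G)⁻¹ * x) = (v : G)⁻¹ * x := by
            rw [Subgroup.coe_mul, Subgroup.coe_inv]
            group
          rw [e])
      refine Finite.of_injective φ ?_
      intro a b hab
      induction a using Quotient.inductionOn with
      | h u =>
        induction b using Quotient.inductionOn with
        | h v =>
          have h2 : T u = T v := congrArg Subtype.val hab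
          apply Quotient.sound
          apply QuotientGroup.leftRel_apply.2
          show ((u⁻¹ * v : U) : G) ∈ N
          refine ⟨(u⁻¹ * v : U).2, fun x => ?_⟩
          have e : ((u⁻¹ * v : U) : G)⁻¹ * x = (v : G)⁻¹ * ((u : G) * x) := by
            rw [Subgroup.coe_mul, Subgroup.coe_inv]
            group
          rw [e]
          have h3 : (u : G) * x ∈ T u ↔ (u : G) * x ∈ T v := by rw [h2]
          have h4 : (u : G)⁻¹ * ((u : G) * x) ∈ Z₀ ↔ (v : G)⁻¹ * ((u : G) * x) ∈ Z₀ := h3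
          rw [← h4, inv_mul_cancel_left]
    have h2 : (N.subgroupOf U).index ≠ 0 := Subgroup.index_ne_zero_of_finite
    have h3 : Finite (G ⧸ U) := U.quotient_finite_of_isOpen hUo
    have h4 : U.index ≠ 0 := Subgroup.index_ne_zero_of_finite
    have h5 := Subgroup.relIndex_mul_index hNU
    refine ⟨?_⟩
    rw [← h5]
    exact mul_ne_zero h2 h4
  have hNc : IsClosed (N : Set G) := by
    have h1 : (N : Set G) = (U : Set G) ∩ ((⋂ x ∈ Z₀, {u | u⁻¹ * x ∈ Z₀}) ∩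
        ⋂ x ∈ Z₀, {u | u * x ∈ Z₀}) := by
      ext u
      simp only [Set.mem_inter_iff, Set.mem_iInter, Set.mem_ofPred_eq, SetLike.mem_coe]
      constructor
      · rintro ⟨hu, hx⟩
        refine ⟨hu, fun x hx' => (hx x).2 hx', fun x hx' => ?_⟩
        rw [← hx (u * x), inv_mul_cancel_left]
        exact hx'
      · rintro ⟨hu, h2, h3⟩
        refine ⟨hu, fun x => ⟨fun h4 => ?_, h2 x⟩⟩
        have h5 := h3 _ h4
        rwa [mul_inv_cancel_left] at h5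
    rw [h1]
    refine (U.isClosed_of_isOpen hUo).inter (IsClosed.inter ?_ ?_)
    · refine isClosed_iInter fun x => isClosed_iInter fun _ => ?_
      exact (hcl Z₀ hZ₀).preimage (continuous_inv.mul continuous_const)
    · refine isClosed_iInter fun x => isClosed_iInter fun _ => ?_
      exact (hcl Z₀ hZ₀).preimage (continuous_id.mul continuous_const)
  have hne : (Z₀ ∩ A).Nonempty := by
    rw [Set.nonempty_iff_ne_empty]
    intro h
    apply hpos₀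
    rw [h, measure_empty]
  obtain ⟨z, hz1, hz2⟩ := hne
  refine ⟨N, N.isOpen_of_isClosed_of_finiteIndex hNc, hNU, z, hZ₀Z hz1, hz2, fun u hu => ?_⟩
  apply hZ₀Z
  rw [← hu.2 (u * z), inv_mul_cancel_left]
  exact hz1

end Pool.Agent.D0H70.TH
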