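import Pool.Agent.D0H45.TH.Stm

set_option autoImplicit false

/-! Module POLY of project TH (helper45). -/

namespace Pool.Agent.D0H70.TH

open Pool.Agent.D0H45.TH
open Module Filter Topology

/-- the point of the entries -/
def ev {F G : Type} [Field F] [Group G] {n : ℕ} (r : G → Matrix (Fin n) (Fin n) F) (c : G → F)
    (g : G) : Option (Fin n × Fin n) → F := fun o => Option.elim o (c g) fun p => r g p.1 p.2

theorem mem_Pol {F G : Type} [Field F] [Group G] {n : ℕ} {r : G → Matrix (Fin n) (Fin n) F}
    {c : G → F} {Z : Set G} : Z ∈ Pol r c ↔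
      ∃ J : Set (MvPolynomial (Option (Fin n × Fin n)) F), Z = {g | ∀ P ∈ J,
        MvPolynomial.eval (ev r c g) P = 0} := Iff.rfl

/-- the vanishing ideal -/
def van {F G : Type} [Field F] [Group G] {n : ℕ} (r : G → Matrix (Fin n) (Fin n) F) (c : G → F)
    (Z : Set G) : Ideal (MvPolynomial (Option (Fin n × Fin n)) F) where
  carrier := {P | ∀ g ∈ Z, MvPolynomial.eval (ev r c g) P = 0}
  add_mem' := by
    intro a b ha hb g hg
    rw [map_add, ha g hg, hb g hg, add_zero]
  zero_mem' := by
    intro g _
    rw [map_zero]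
  smul_mem' := by
    intro a b hb g hg
    rw [smul_eq_mul, map_mul, hb g hg, mul_zero]

theorem t_POLY : S_POLY := by
  intro F G _ _ _ _ _ _ _ n r c hr hc
  have hev : Continuous (ev (fun g => r g) (fun g => c g)) := by
    refine continuous_pi fun o => ?_
    rcases o with _ | ⟨i, j⟩
    · exact hc
    · exact (continuous_apply_apply i j).comp hr
  refine ⟨?_, ?_, ?_, ?_⟩
  · intro Z hZ
    obtain ⟨J, rfl⟩ := mem_Pol.1 hZ
    have h1 : {g | ∀ P ∈ J, MvPolynomial.eval (ev (fun g => r g) (fun g => c g) g) P = 0} =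
        ⋂ P ∈ J, {g | MvPolynomial.eval (ev (fun g => r g) (fun g => c g) g) P = 0} := by
      ext g
      simp
    rw [h1]
    refine isClosed_iInter fun P => isClosed_iInter fun _ => ?_
    exact isClosed_eq ((MvPolynomial.continuous_eval P).comp hev) continuous_const
  · intro Z hZ Z' hZ'
    obtain ⟨J, rfl⟩ := mem_Pol.1 hZ
    obtain ⟨J', rfl⟩ := mem_Pol.1 hZ'
    refine mem_Pol.2 ⟨J ∪ J', ?_⟩
    ext g
    constructor
    · rintro ⟨h1, h2⟩ P (hP | hP)
      · exact h1 P hP
      · exact h2 P hP
    · intro h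
      exact ⟨fun P hP => h P (Or.inl hP), fun P hP => h P (Or.inr hP)⟩
  · intro Z hZ g
    obtain ⟨J, rfl⟩ := mem_Pol.1 hZ
    let L : Option (Fin n × Fin n) → MvPolynomial (Option (Fin n × Fin n)) F := fun o =>
      Option.elim o (MvPolynomial.C (c g⁻¹) * MvPolynomial.X none) fun p =>
        ∑ k, MvPolynomial.C (r g⁻¹ p.1 k) * MvPolynomial.X (some (k, p.2))
    have hL : ∀ x o, MvPolynomial.eval (ev (fun g => r g) (fun g => c g) x) (L o) =
        ev (fun g => r g) (fun g => c g) (g⁻¹ * x) o := by
      intro x o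
      rcases o with _ | ⟨i, j⟩
      · show MvPolynomial.eval (ev (fun g => r g) (fun g => c g) x)
          (MvPolynomial.C (c g⁻¹) * MvPolynomial.X none) = c (g⁻¹ * x)
        rw [map_mul, MvPolynomial.eval_C, MvPolynomial.eval_X, map_mul]
        rfl
      · show MvPolynomial.eval (ev (fun g => r g) (fun g => c g) x)
          (∑ k, MvPolynomial.C (r g⁻¹ i k) * MvPolynomial.X (some (k, j))) = r (g⁻¹ * x) i j
        rw [map_sum, map_mul, Matrix.mul_apply]
        refine Finset.sum_congr rfl fun k _ => ?_
        rw [map_mul, MvPolynomial.eval_C, MvPolynomial.eval_X]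
        rfl
    have hb : ∀ x P, MvPolynomial.eval (ev (fun g => r g) (fun g => c g) x)
        (MvPolynomial.bind₁ L P) =
        MvPolynomial.eval (ev (fun g => r g) (fun g => c g) (g⁻¹ * x)) P := by
      intro x P
      have h := MvPolynomial.eval₂Hom_bind₁ (RingHom.id F) (ev (fun g => r g) (fun g => c g) x) L P
      have e : ev (fun g => r g) (fun g => c g) (g⁻¹ * x) = fun o =>
          MvPolynomial.eval (ev (fun g => r g) (fun g => c g) x) (L o) :=
        funext fun o => (hL x o).symm
      rw [e]
      exact h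
    refine mem_Pol.2 ⟨(fun P => MvPolynomial.bind₁ L P) '' J, ?_⟩
    rw [Set.image_mul_left]
    ext x
    constructor
    · rintro h Q ⟨P, hP, rfl⟩
      rw [hb]
      exact h P hP
    · intro h P hP
      rw [← hb]
      exact h _ ⟨P, hP, rfl⟩
  · intro s hs hanti
    have hmono : Monotone fun k => van (fun g => r g) (fun g => c g) (s k) := by
      intro a b hab P hP g hg
      exact hP g (hanti hab hg)
    obtain ⟨N, hN⟩ := (monotone_stabilizes_iff_noetherian
      (R := MvPolynomial (Option (Fin n × Fin n)) F)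
      (M := MvPolynomial (Option (Fin n × Fin n)) F)).2 inferInstance ⟨_, hmono⟩
    have hZ : ∀ k, s k = {g | ∀ P ∈ van (fun g => r g) (fun g => c g) (s k),
        MvPolynomial.eval (ev (fun g => r g) (fun g => c g) g) P = 0} := by
      intro k
      obtain ⟨J, hJ⟩ := mem_Pol.1 (hs k)
      ext g
      constructor
      · intro hg P hP
        exact hP g hg
      · intro h
        rw [hJ]
        intro P hP
        refine h P ?_
        intro x hx
        rw [hJ] at hx
        exact hx P hP
    refine ⟨N, fun k hk => ?_⟩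
    have h1 : van (fun g => r g) (fun g => c g) (s N) = van (fun g => r g) (fun g => c g) (s k) :=
      hN k hk
    have h2 : s k = {g | ∀ P ∈ van (fun g => r g) (fun g => c g) (s N),
        MvPolynomial.eval (ev (fun g => r g) (fun g => c g) g) P = 0} := by
      rw [h1]
      exact hZ k
    exact h2.trans (hZ N).symm

end Pool.Agent.D0H70.TH
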